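import Pool.Agent.Helper70.BI.HH.Cells
import Pool.Agent.Helper70.BI.T.M_SPN

/-!
# Project BI, stage 7 (H), module CCC: horizontal composition of closed 2-cells
-/

set_option autoImplicit false

open scoped Topology unitInterval
open Set Pool.Agent.Helper65.Barb Pool.Agent.Helper18.BI
open Pool.Agent.Helper18.FinR (sqr)
open Pool.Agent.Helper18.BI.R (S2)
open Pool.Agent.Helper70.T

namespace Pool.Agent.Helper70.HH

namespace CCC

/-- the projection of the line onto the interval -/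
noncomputable def pI (t : ℝ) : I := projIcc (0 : ℝ) 1 zero_le_one t

theorem cont_pI : Continuous pI := continuous_projIcc (h := zero_le_one)

theorem pI_lo {t : ℝ} (h : t ≤ 0) : pI t = 0 := projIcc_of_le_left _ h

theorem pI_hi {t : ℝ} (h : 1 ≤ t) : pI t = 1 := projIcc_of_right_le _ h

theorem pI_coe {t : ℝ} (h : t ∈ Icc (0 : ℝ) 1) : (pI t : ℝ) = t := by
  unfold pI
  rw [projIcc_of_mem _ h]

/-- a homotopy in polar coordinates -/
theorem hfree {X : Type} [TopologicalSpace X] (hPP : StPP) (hPQ : StPQ) (Γ : ℝ × ℝ × ℝ → X)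
    (hc : Continuous Γ) (h1 : ∀ z v, Γ (z, 0, v) = Γ (z, 1, v))
    (h2 : ∀ z ρ, Γ (z, ρ, 0) = Γ (z, 0, 0)) (h3 : ∀ z ρ, Γ (z, ρ, 1) = Γ (z, 0, 1)) :
    Hfree (fun t => sph2 (fun q => Γ (0, q)) (sqr t)) (fun t => sph2 (fun q => Γ (1, q)) (sqr t)) ∧
      ∀ z, ContinuousOn (sph2 (fun q => Γ (z, q))) S2 := by
  obtain ⟨a, -⟩ := hPQ X ℝ Γ hc.continuousOn (fun z v _ => h1 z v) (fun z ρ _ => h2 z ρ)
    (fun z ρ _ => h3 z ρ)
  refine ⟨⟨fun p => sph2 (fun q => Γ (p.1, q)) (sqr p.2), ?_, fun _ => rfl, fun _ => rfl, ?_⟩, ?_⟩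
  · refine a.comp (f := fun p : ℝ × (Fin 2 → I) => ((p.1, sqr p.2) : ℝ × R3)) ?_ ?_
    · exact (continuous_fst.prodMk (R.EXC.continuous_sqr.comp continuous_snd)).continuousOn
    · intro p _
      exact ⟨mem_univ _, SPN.sqr_mem hPP p.2⟩
  · intro u _ t ht t' ht'
    show sph2 (fun q => Γ (u, q)) (sqr t) = sph2 (fun q => Γ (u, q)) (sqr t')
    rw [SPN.sqr_bd ht, SPN.sqr_bd ht']
  · intro z
    refine a.comp (f := fun m : R3 => ((z, m) : ℝ × R3)) ?_ ?_
    · exact (continuous_const.prodMk continuous_id).continuousOn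
    · intro m hm
      exact ⟨mem_univ _, hm⟩

section
variable {X : Type} [TopologicalSpace X] {x y z : X}

theorem cont_cell {p q : Path x y} (γ : Path p q) {Z : Type} [TopologicalSpace Z]
    {a b : Z → ℝ} (ha : Continuous a) (hb : Continuous b) :
    Continuous fun u => γ (pI (a u)) (pI (b u)) := by
  have h : Continuous fun u : Z => raw γ (pI (a u), pI (b u)) :=
    (raw γ).continuous.comp ((cont_pI.comp ha).prodMk (cont_pI.comp hb))
  exact h

theorem cell_0 {p : Path x y} (γ : Path p p) (v : I) : γ (pI 0) v = γ (pI 1) v := by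
  rw [pI_lo le_rfl, pI_hi le_rfl, γ.source, γ.target]

theorem cell_l {p q : Path x y} (γ : Path p q) (ρ : I) {t : ℝ} (h : t ≤ 0) :
    γ ρ (pI t) = x := by
  rw [pI_lo h, Path.source]

theorem cell_r {p q : Path x y} (γ : Path p q) (ρ : I) {t : ℝ} (h : 1 ≤ t) :
    γ ρ (pI t) = y := by
  rw [pI_hi h, Path.target]

theorem hc_lo {p p' : Path x y} {q q' : Path y z} (γ : Path p p') (δ : Path q q') (s : I)
    {v : ℝ} (h : v ≤ 1 / 2) : hcP γ δ s (pI v) = γ s (pI (2 * v)) :=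
  Path.extend_trans_of_le_half (γ s) (δ s) h

theorem hc_hi {p p' : Path x y} {q q' : Path y z} (γ : Path p p') (δ : Path q q') (s : I)
    {v : ℝ} (h : 1 / 2 ≤ v) : hcP γ δ s (pI v) = δ s (pI (2 * v - 1)) :=
  Path.extend_trans_of_half_le (γ s) (δ s) h

end

theorem lat_half {m : R3} (h : m.1 = 0) : lat m = 1 / 2 := by
  unfold lat
  rw [h, Real.arccos_zero]
  field_simp

theorem lat_le {m : R3} (h : 0 ≤ m.1) : lat m ≤ 1 / 2 := by
  unfold lat
  rw [div_le_iff₀ Real.pi_pos]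
  have := Real.arccos_le_pi_div_two.2 h
  linarith

theorem lat_ge {m : R3} (h : m.1 ≤ 0) : 1 / 2 ≤ lat m := by
  unfold lat
  rw [le_div_iff₀ Real.pi_pos]
  have h1 : Real.pi / 2 ≤ Real.arccos m.1 := by
    by_contra h2
    push Not at h2
    have h3 := Real.arccos_lt_pi_div_two.1 h2
    linarith
  linarith

theorem S2_disk {m : R3} (hm : m ∈ S2) : nsq (0, m.2) ≤ 1 := by
  have h : m.1 ^ 2 + m.2.re ^ 2 + m.2.im ^ 2 = 1 := hm
  show (0 : ℝ) ^ 2 + m.2.re ^ 2 + m.2.im ^ 2 ≤ 1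
  nlinarith [sq_nonneg m.1]

theorem cont_nsq : Continuous nsq := by
  unfold nsq
  fun_prop

end CCC

open CCC in
/-- **CCC.** -/
theorem m_CCC (hPP : StPP) (hPQ : StPQ) (hADD : StADD) : StCCC := by
  intro X _ y₀ sq hsq x y z p q γ δ
  classical
  -- the sphere of the composition
  let f : R3 → X := sph2 fun w => hcP γ δ (pI w.1) (pI w.2)
  have hf : ContinuousOn f S2 := (hfree hPP hPQ (fun w => hcP γ δ (pI w.2.1) (pI w.2.2))
    (cont_cell _ (by fun_prop) (by fun_prop)) (fun _ v => cell_0 _ _)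
    (fun _ ρ => by rw [cell_l _ _ le_rfl, cell_l _ _ le_rfl])
    (fun _ ρ => by rw [cell_r _ _ le_rfl, cell_r _ _ le_rfl])).2 0
  let Φ : R3 → X := fun m => if nsq m = 1 then f m else y
  have hΦ1 : ∀ m ∈ S2, Φ m = f m := fun m hm => if_pos hm
  have hΦ2 : ∀ m : R3, m.1 = 0 → Φ m = y := by
    intro m hm
    by_cases h : nsq m = 1
    · rw [hΦ1 m h]
      show hcP γ δ (pI (lon m / (2 * Real.pi))) (pI (lat m)) = y
      rw [lat_half hm, hc_lo _ _ _ le_rfl]
      exact cell_r _ _ (by norm_num)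
    · exact if_neg h
  have hΦ : ContinuousOn Φ UU := by
    refine ContinuousOn.union_of_isClosed (hf.congr hΦ1) ?_ ?_ ?_
    · exact continuousOn_const.congr fun m hm => hΦ2 m hm.1
    · exact isClosed_eq cont_nsq continuous_const
    · exact (isClosed_eq continuous_fst continuous_const).inter
        (isClosed_le cont_nsq continuous_const)
  have h1 := hADD X y₀ sq hsq Φ hΦ
  have e1 : (fun t => Φ (sqr t)) = sphP (hcP γ δ) := by
    funext t
    exact hΦ1 _ (SPN.sqr_mem hPP t)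
  rw [e1] at h1
  have hpI0 : ((pI 0 : I) : ℝ) = 0 := by rw [pI_lo le_rfl]; rfl
  have hpI1 : ((pI 1 : I) : ℝ) = 1 := by rw [pI_hi le_rfl]; rfl
  -- the upper half
  have u1 := (hfree hPP hPQ (fun w => γ (pI w.2.1) (pI ((2 - (pI w.1 : ℝ)) * w.2.2)))
    (cont_cell _ (by fun_prop) (by
      have := cont_pI
      fun_prop)) (fun _ v => cell_0 _ _) (fun u ρ => by
      show γ (pI ρ) (pI ((2 - (pI u : ℝ)) * 0)) = γ (pI 0) (pI ((2 - (pI u : ℝ)) * 0))
      rw [mul_zero, cell_l _ _ le_rfl, cell_l _ _ le_rfl]) (fun u ρ => by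
      have h := (pI u).2.2
      show γ (pI ρ) (pI ((2 - (pI u : ℝ)) * 1)) = γ (pI 0) (pI ((2 - (pI u : ℝ)) * 1))
      rw [cell_r _ _ (by linarith), cell_r _ _ (by linarith)])).1
  have u2 := hsq.free _ _ u1
  have u3 : (fun t => Φ (max (sqr t).1 0, (sqr t).2)) = fun t =>
      sph2 (fun q : ℝ × ℝ => γ (pI q.1) (pI ((2 - (pI 0 : ℝ)) * q.2))) (sqr t) := by
    funext t
    have hm := SPN.sqr_mem hPP t
    generalize sqr t = m at hm
    show Φ (max m.1 0, m.2) =
      γ (pI (lon m / (2 * Real.pi))) (pI ((2 - (pI 0 : ℝ)) * lat m))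
    rw [hpI0, sub_zero]
    rcases le_total 0 m.1 with h | h
    · rw [max_eq_left h, hΦ1 m hm]
      exact hc_lo _ _ _ (lat_le h)
    · rw [max_eq_right h, hΦ2 _ rfl]
      exact (cell_r _ _ (by linarith [lat_ge h])).symm
  have u4 : (fun t => sph2 (fun q : ℝ × ℝ => γ (pI q.1) (pI ((2 - (pI 1 : ℝ)) * q.2))) (sqr t)) =
      sphP γ := by
    funext t
    show γ (pI (lon (sqr t) / (2 * Real.pi))) (pI ((2 - (pI 1 : ℝ)) * lat (sqr t))) =
      γ (pI (lon (sqr t) / (2 * Real.pi))) (pI (lat (sqr t)))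
    rw [hpI1]
    congr 2
    ring
  -- the lower half
  have v1 := (hfree hPP hPQ (fun w => δ (pI w.2.1) (pI (1 - (2 - (pI w.1 : ℝ)) * (1 - w.2.2))))
    (cont_cell _ (by fun_prop) (by
      have := cont_pI
      fun_prop)) (fun _ v => cell_0 _ _) (fun u ρ => by
      have h := (pI u).2.2
      show δ (pI ρ) (pI (1 - (2 - (pI u : ℝ)) * (1 - 0))) =
        δ (pI 0) (pI (1 - (2 - (pI u : ℝ)) * (1 - 0)))
      rw [cell_l _ _ (by linarith), cell_l _ _ (by linarith)]) (fun u ρ => by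
      show δ (pI ρ) (pI (1 - (2 - (pI u : ℝ)) * (1 - 1))) =
        δ (pI 0) (pI (1 - (2 - (pI u : ℝ)) * (1 - 1)))
      rw [cell_r _ _ (by linarith), cell_r _ _ (by linarith)])).1
  have v2 := hsq.free _ _ v1
  have v3 : (fun t => Φ (min (sqr t).1 0, (sqr t).2)) = fun t =>
      sph2 (fun q : ℝ × ℝ => δ (pI q.1) (pI (1 - (2 - (pI 0 : ℝ)) * (1 - q.2)))) (sqr t) := by
    funext t
    have hm := SPN.sqr_mem hPP t
    generalize sqr t = m at hm
    show Φ (min m.1 0, m.2) =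
      δ (pI (lon m / (2 * Real.pi))) (pI (1 - (2 - (pI 0 : ℝ)) * (1 - lat m)))
    rw [hpI0, sub_zero]
    rcases le_total 0 m.1 with h | h
    · rw [min_eq_right h, hΦ2 _ rfl]
      exact (cell_l _ _ (by linarith [lat_le h])).symm
    · rw [min_eq_left h, hΦ1 m hm]
      have e2 : (1 - 2 * (1 - lat m) : ℝ) = 2 * lat m - 1 := by ring
      rw [e2]
      exact hc_hi _ _ _ (lat_ge h)
  have v4 : (fun t => sph2 (fun q : ℝ × ℝ => δ (pI q.1)
      (pI (1 - (2 - (pI 1 : ℝ)) * (1 - q.2)))) (sqr t)) = sphP δ := by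
    funext t
    show δ (pI (lon (sqr t) / (2 * Real.pi))) (pI (1 - (2 - (pI 1 : ℝ)) * (1 - lat (sqr t)))) =
      δ (pI (lon (sqr t) / (2 * Real.pi))) (pI (lat (sqr t)))
    rw [hpI1]
    congr 2
    ring
  rw [h1, u3, v3, u2, v2, u4, v4]

end Pool.Agent.Helper70.HH
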